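import Pool.Agent.R805.CircG.Main

/-!
# MP_dce81a_co, Q1: a circle graph whose independence complex is not a wedge of spheres
-/

namespace Pool.Agent.Results.MP_dce81a_co.DisjointCircles

open Pool.Agent.R805.CircG

/-- There is a circle graph (with eight vertices) whose independence complex is not homotopy
equivalent to any wedge of spheres. -/
theorem result : ∃ G : SimpleGraph (Fin 8), IsCircleGraph G ∧ ¬ IsWedgeOfSpheres (IndComplex G) :=
  ⟨G8, ⟨D8, rfl⟩, not_wedge⟩

end Pool.Agent.Results.MP_dce81a_co.DisjointCircles
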